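import Pool.Agent.Helper95.LN.Stmts
import Pool.Agent.Helper47.PN.REPL

/-!
# Row VIR: lower bound of the virial of a localized field
-/

set_option autoImplicit false

namespace Pool.Agent.Helper32.LN

open MeasureTheory Filter Pool.Agent.Helper95.PW Pool.Agent.Helper95.LN

theorem vr_nonneg (y : R3) : 0 ≤ nr y := Real.sqrt_nonneg _

theorem vr_sq (y : R3) : nr y ^ 2 = y 0 ^ 2 + y 1 ^ 2 + y 2 ^ 2 := Real.sq_sqrt (by positivity)

theorem vr_comm (y z : R3) : nr (y - z) = nr (z - y) := by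
  unfold nr
  congr 1
  simp only [Pi.sub_apply]
  ring

theorem vr_zero : nr (0 : R3) = 0 := by
  unfold nr
  simp

theorem vr_coord (y : R3) (i : Fin 3) : |y i| ≤ nr y := by
  apply Real.abs_le_sqrt
  fin_cases i
  · simp only [Fin.zero_eta, Fin.isValue]
    nlinarith [sq_nonneg (y 1), sq_nonneg (y 2)]
  · simp only [Fin.mk_one, Fin.isValue]
    nlinarith [sq_nonneg (y 0), sq_nonneg (y 2)]
  · simp only [Fin.reduceFinMk, Fin.isValue]
    nlinarith [sq_nonneg (y 1), sq_nonneg (y 0)]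

/-- balls of radius `3 d / 2` around the nuclei are disjoint -/
theorem vr_unique {M : ℕ} {X : Fin M → R3} {d : ℝ} (hd : 0 < d) (hX : Sep X d) (y : R3)
    {i j : Fin M} (hi : nr (y - X i) < 3 / 2 * d) (hj : nr (y - X j) < 3 / 2 * d) : i = j := by
  by_contra h
  have h1 := hX i j h
  have a1 := vr_sq (y - X i)
  have a2 := vr_sq (y - X j)
  have a3 := vr_sq (X i - X j)
  simp only [Pi.sub_apply] at a1 a2 a3
  have b1 : nr (y - X i) ^ 2 < (3 / 2 * d) ^ 2 := pow_lt_pow_left₀ hi (vr_nonneg _) two_ne_zero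
  have b2 : nr (y - X j) ^ 2 < (3 / 2 * d) ^ 2 := pow_lt_pow_left₀ hj (vr_nonneg _) two_ne_zero
  have b3 : (4 * d) ^ 2 ≤ nr (X i - X j) ^ 2 := pow_le_pow_left₀ (by positivity) h1 2
  have c0 := sq_nonneg ((y 0 - X i 0) + (y 0 - X j 0))
  have c1 := sq_nonneg ((y 1 - X i 1) + (y 1 - X j 1))
  have c2 := sq_nonneg ((y 2 - X i 2) + (y 2 - X j 2))
  nlinarith [sq_nonneg d]

/-- sum over ordered pairs -/
theorem vr_pairs {n : ℕ} (q : Fin n → Fin n → ℝ) (h0 : ∀ k, q k k = 0) :
    ∑ k, ∑ l, q k l = ∑ k, ∑ l, if k < l then q k l + q l k else 0 := by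
  have h1 : ∀ k l, q k l = (if k < l then q k l else 0) + (if l < k then q k l else 0) := by
    intro k l
    rcases lt_trichotomy k l with h | h | h
    · rw [if_pos h, if_neg (not_lt.2 h.le), add_zero]
    · subst h
      rw [if_neg (lt_irrefl _), h0, add_zero]
    · rw [if_neg (not_lt.2 h.le), if_pos h, zero_add]
  have h2 : ∑ k, ∑ l, (if l < k then q k l else 0) = ∑ k, ∑ l, (if k < l then q l k else 0) :=
    Finset.sum_comm
  calc ∑ k, ∑ l, q k l
      = ∑ k, ∑ l, ((if k < l then q k l else 0) + (if l < k then q k l else 0)) :=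
        Finset.sum_congr rfl fun k _ => Finset.sum_congr rfl fun l _ => h1 k l
    _ = ∑ k, ∑ l, (if k < l then q k l else 0) + ∑ k, ∑ l, (if k < l then q l k else 0) := by
        rw [← h2, ← Finset.sum_add_distrib]
        exact Finset.sum_congr rfl fun k _ => Finset.sum_add_distrib
    _ = _ := by
        rw [← Finset.sum_add_distrib]
        refine Finset.sum_congr rfl fun k _ => ?_
        rw [← Finset.sum_add_distrib]
        refine Finset.sum_congr rfl fun l _ => ?_
        split_ifs <;> simp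

theorem vr_Dn_nonneg {n M : ℕ} (b : ℝ) (X : Fin M → R3) (Z : Fin M → ℝ) (x : Cf n) :
    0 ≤ Dn b X Z x := by
  have hcb : 0 ≤ cb := by
    unfold cb
    exact intervalIntegral.integral_nonneg (by norm_num) fun t _ => sq_nonneg _
  have hk : 0 ≤ kap := by
    unfold kap
    refine integral_nonneg fun y => ?_
    have := vr_nonneg y
    unfold et
    positivity
  unfold Dn
  refine mul_nonneg (div_nonneg zero_le_one hk) (integral_nonneg fun w => ?_)
  exact Finset.sum_nonneg fun i _ => sq_nonneg _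

/-- indicator of the ball of radius `3 d / 2` around the nucleus `i` -/
noncomputable def io {n M : ℕ} (d : ℝ) (X : Fin M → R3) (x : Cf n) (k : Fin n) (i : Fin M) : ℝ :=
  if nr (x k - X i) < 3 / 2 * d then 1 else 0

theorem io_nonneg {n M : ℕ} (d : ℝ) (X : Fin M → R3) (x : Cf n) (k : Fin n) (i : Fin M) :
    0 ≤ io d X x k i := by
  unfold io
  split_ifs <;> norm_num

theorem io_le {n M : ℕ} (d : ℝ) (X : Fin M → R3) (x : Cf n) (k : Fin n) (i : Fin M) :
    io d X x k i ≤ 1 := by
  unfold io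
  split_ifs <;> norm_num

theorem io_sum_le {n M : ℕ} {d : ℝ} (hd : 0 < d) {X : Fin M → R3} (hX : Sep X d) (x : Cf n)
    (k : Fin n) : ∑ i, io d X x k i ≤ 1 := by
  by_cases h : ∃ i, nr (x k - X i) < 3 / 2 * d
  · obtain ⟨i, hi⟩ := h
    rw [Finset.sum_eq_single i]
    · exact io_le _ _ _ _ _
    · intro j _ hj
      exact if_neg fun h => hj (vr_unique hd hX _ h hi)
    · intro h
      exact absurd (Finset.mem_univ i) h
  · push Not at h
    have e : ∑ i, io d X x k i = 0 := Finset.sum_eq_zero fun i _ => if_neg (not_lt.2 (h i))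
    rw [e]
    norm_num

/-- `q k l`: gradient at `x k` times the force of the electron `l` on the electron `k` -/
noncomputable def qf {n : ℕ} (g : R3 → ℝ) (x : Cf n) (k l : Fin n) : ℝ :=
  (∑ m, pd m g (x k) * (x k m - x l m)) / nr (x k - x l) ^ 3

/-- the same for a nucleus -/
noncomputable def pf {n M : ℕ} (g : R3 → ℝ) (X : Fin M → R3) (x : Cf n) (k : Fin n)
    (j : Fin M) : ℝ :=
  (∑ m, pd m g (x k) * (x k m - X j m)) / nr (x k - X j) ^ 3

theorem qf_self {n : ℕ} (g : R3 → ℝ) (x : Cf n) (k : Fin n) : qf g x k k = 0 := by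
  unfold qf
  simp

theorem qf_add {n : ℕ} (g : R3 → ℝ) (x : Cf n) (k l : Fin n) :
    qf g x k l + qf g x l k =
      (∑ m, (pd m g (x k) - pd m g (x l)) * (x k m - x l m)) / nr (x k - x l) ^ 3 := by
  unfold qf
  rw [vr_comm (x l) (x k), ← add_div, ← Finset.sum_add_distrib]
  congr 1
  exact Finset.sum_congr rfl fun m _ => by ring

theorem vir_eq {n M : ℕ} (X : Fin M → R3) (Z : Fin M → ℝ) (g : R3 → ℝ) (x : Cf n) :
    2 * Vir X Z g x = ∑ k, ((∑ l, qf g x k l) - ∑ j, Z j * pf g X x k j) := by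
  unfold Vir
  rw [Finset.sum_sub_distrib, vr_pairs _ (qf_self g x)]
  simp only [qf_add]
  unfold pf
  ring

/-- decomposition of the force at the electron `k` -/
theorem force_eq {n M : ℕ} (d : ℝ) (X : Fin M → R3) (Z : Fin M → ℝ) (g : R3 → ℝ) (x : Cf n)
    (k : Fin n) (i : Fin M) :
    (∑ l, qf g x k l) - ∑ j, Z j * pf g X x k j =
      ∑ l, io d X x l i * qf g x k l + ∑ m, pd m g (x k) * farE d X Z x i m (x k) -
        Z i * pf g X x k i := by
  have h1 : ∑ m, pd m g (x k) * farE d X Z x i m (x k) =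
      ∑ l, (1 - io d X x l i) * qf g x k l - ∑ j, if j = i then 0 else Z j * pf g X x k j := by
    unfold farE
    simp only [mul_sub, Finset.mul_sum]
    rw [Finset.sum_sub_distrib]
    congr 1
    · rw [Finset.sum_comm]
      refine Finset.sum_congr rfl fun l _ => ?_
      unfold io qf
      split_ifs with h
      · simp
      · rw [sub_zero, one_mul, Finset.sum_div]
        exact Finset.sum_congr rfl fun m _ => by ring
    · rw [Finset.sum_comm]
      refine Finset.sum_congr rfl fun j _ => ?_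
      split_ifs with h
      · simp
      · unfold pf
        rw [Finset.sum_div, Finset.mul_sum]
        exact Finset.sum_congr rfl fun m _ => by ring
  have h2 : ∑ j, Z j * pf g X x k j =
      (∑ j, if j = i then 0 else Z j * pf g X x k j) + Z i * pf g X x k i := by
    have h3 : Z i * pf g X x k i = ∑ j, if j = i then Z j * pf g X x k j else 0 := by
      simp
    rw [h3, ← Finset.sum_add_distrib]
    refine Finset.sum_congr rfl fun j _ => ?_
    split_ifs <;> simp
  have h4 : ∑ l, qf g x k l =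
      ∑ l, io d X x l i * qf g x k l + ∑ l, (1 - io d X x l i) * qf g x k l := by
    rw [← Finset.sum_add_distrib]
    exact Finset.sum_congr rfl fun l _ => by ring
  rw [h1, h2, h4]
  ring

/-- where the gradient is not zero there is a nucleus nearer than `d` -/
theorem pd_cases {n M : ℕ} {d : ℝ} {X : Fin M → R3} {g : R3 → ℝ} (x : Cf n)
    (h0 : ∀ i y, (∀ j, d ≤ nr (y - X j)) → pd i g y = 0) (k : Fin n) :
    (∀ m, pd m g (x k) = 0) ∨ ∃ i, nr (x k - X i) < d := by
  by_cases h : ∃ i, nr (x k - X i) < d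
  · exact Or.inr h
  · push Not at h
    exact Or.inl fun m => h0 m (x k) h

theorem io_pd {n M : ℕ} {d : ℝ} (hd : 0 < d) {X : Fin M → R3} (hX : Sep X d) {g : R3 → ℝ}
    (x : Cf n) (h0 : ∀ i y, (∀ j, d ≤ nr (y - X j)) → pd i g y = 0) (k : Fin n) (i : Fin M) :
    (∀ m, pd m g (x k) = 0) ∨ io d X x k i = 0 ∨ nr (x k - X i) < d := by
  rcases pd_cases x h0 k with h | ⟨j, hj⟩
  · exact Or.inl h
  · right
    by_cases hi : nr (x k - X i) < 3 / 2 * d
    · right
      have : i = j := vr_unique hd hX _ hi (by linarith)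
      subst this
      exact hj
    · left
      exact if_neg hi

/-- inserting the indicators -/
theorem io_insert {n M : ℕ} {d : ℝ} (hd : 0 < d) {X : Fin M → R3} (hX : Sep X d) {g : R3 → ℝ}
    (x : Cf n) (h0 : ∀ i y, (∀ j, d ≤ nr (y - X j)) → pd i g y = 0) (Z : Fin M → ℝ) (k : Fin n) :
    (∑ l, qf g x k l) - ∑ j, Z j * pf g X x k j =
      ∑ i, io d X x k i * ((∑ l, qf g x k l) - ∑ j, Z j * pf g X x k j) := by
  rw [← Finset.sum_mul]
  rcases pd_cases x h0 k with h | ⟨j, hj⟩
  · have e1 : ∑ l, qf g x k l = 0 := Finset.sum_eq_zero fun l _ => by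
      unfold qf
      simp [h]
    have e2 : ∑ j, Z j * pf g X x k j = 0 := Finset.sum_eq_zero fun l _ => by
      unfold pf
      simp [h]
    rw [e1, e2]
    simp
  · have e1 : ∑ i, io d X x k i = 1 := by
      rw [Finset.sum_eq_single j]
      · exact if_pos (by linarith)
      · intro i _ hi
        exact if_neg fun h => hi (vr_unique hd hX _ h (by linarith))
      · intro h
        exact absurd (Finset.mem_univ j) h
    rw [e1, one_mul]

theorem cnt_eq {n M : ℕ} (d : ℝ) (X : Fin M → R3) (x : Cf n) (i : Fin M) :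
    cnt X (3 / 2 * d) x i = ∑ k, io d X x k i := rfl

/-- the far part -/
theorem far_bound {n M : ℕ} {d A : ℝ} (hd : 0 < d) (hA : 0 ≤ A) {X : Fin M → R3} (hX : Sep X d)
    {Z : Fin M → ℝ} {g : R3 → ℝ} (x : Cf n)
    (h0 : ∀ i y, (∀ j, d ≤ nr (y - X j)) → pd i g y = 0) (h1 : ∀ i y, |pd i g y| ≤ A)
    {e : Fin M → ℝ} (he : ∀ i m y, nr (y - X i) ≤ d → |farE d X Z x i m y| ≤ e i)
    (k : Fin n) (i : Fin M) :
    -(3 * A * e i * io d X x k i) ≤
      io d X x k i * ∑ m, pd m g (x k) * farE d X Z x i m (x k) := by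
  have he0 : 0 ≤ e i := (abs_nonneg _).trans (he i 0 (X i) (by rw [sub_self, vr_zero]; exact hd.le))
  have hio := io_nonneg d X x k i
  rcases io_pd hd hX x h0 k i with h | h | h
  · simp only [h, zero_mul, Finset.sum_const_zero, mul_zero]
    have : 0 ≤ 3 * A * e i * io d X x k i := by positivity
    linarith
  · rw [h]
    simp
  · have h2 : ∀ m, -(A * e i) ≤ pd m g (x k) * farE d X Z x i m (x k) := by
      intro m
      have h3 : |pd m g (x k) * farE d X Z x i m (x k)| ≤ A * e i := by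
        rw [abs_mul]
        exact mul_le_mul (h1 m _) (he i m _ h.le) (abs_nonneg _) hA
      exact (abs_le.1 h3).1
    have h4 : -(3 * A * e i) ≤ ∑ m, pd m g (x k) * farE d X Z x i m (x k) := by
      rw [Fin.sum_univ_three]
      have a0 := h2 0
      have a1 := h2 1
      have a2 := h2 2
      linarith
    nlinarith [mul_le_mul_of_nonneg_left h4 hio]

/-- the own nucleus -/
theorem own_bound {n M : ℕ} {d A z : ℝ} (hd : 0 < d) (hA : 0 ≤ A) {X : Fin M → R3}
    (hX : Sep X d) {Z : Fin M → ℝ} {g : R3 → ℝ} (x : Cf n)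
    (hx : ∀ k j, nr (x k - X j) ≠ 0) (hZ : ∀ j, 0 ≤ Z j) (hZz : ∀ j, Z j ≤ z)
    (h0 : ∀ i y, (∀ j, d ≤ nr (y - X j)) → pd i g y = 0) (h1 : ∀ i y, |pd i g y| ≤ A)
    (k : Fin n) (i : Fin M) :
    io d X x k i * (Z i * pf g X x k i) ≤
      3 * z * A * (if nr (x k - X i) < d then 1 / nr (x k - X i) ^ 2 else 0) := by
  have hz : 0 ≤ z := (hZ i).trans (hZz i)
  have hR : 0 ≤ 3 * z * A * (if nr (x k - X i) < d then 1 / nr (x k - X i) ^ 2 else 0) := by
    have : 0 ≤ (if nr (x k - X i) < d then 1 / nr (x k - X i) ^ 2 else (0 : ℝ)) := by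
      split_ifs <;> positivity
    positivity
  rcases io_pd hd hX x h0 k i with h | h | h
  · have : pf g X x k i = 0 := by
      unfold pf
      simp [h]
    rw [this]
    simpa using hR
  · rw [h, zero_mul]
    exact hR
  · rw [if_pos h]
    have hr : 0 < nr (x k - X i) := lt_of_le_of_ne (vr_nonneg _) (Ne.symm (hx k i))
    have h2 : ∑ m, pd m g (x k) * (x k m - X i m) ≤ 3 * A * nr (x k - X i) := by
      have h3 : ∀ m, pd m g (x k) * (x k m - X i m) ≤ A * nr (x k - X i) := by
        intro m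
        refine (le_abs_self _).trans ?_
        rw [abs_mul]
        exact mul_le_mul (h1 m _) (vr_coord (x k - X i) m) (abs_nonneg _) hA
      rw [Fin.sum_univ_three]
      have a0 := h3 0
      have a1 := h3 1
      have a2 := h3 2
      linarith
    have h4 : pf g X x k i ≤ 3 * A * (1 / nr (x k - X i) ^ 2) := by
      unfold pf
      rw [div_le_iff₀ (by positivity)]
      calc ∑ m, pd m g (x k) * (x k m - X i m) ≤ 3 * A * nr (x k - X i) := h2
        _ = 3 * A * (1 / nr (x k - X i) ^ 2) * nr (x k - X i) ^ 3 := by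
            field_simp
    have h5 : Z i * pf g X x k i ≤ z * (3 * A * (1 / nr (x k - X i) ^ 2)) := by
      calc Z i * pf g X x k i ≤ Z i * (3 * A * (1 / nr (x k - X i) ^ 2)) :=
            mul_le_mul_of_nonneg_left h4 (hZ i)
        _ ≤ z * (3 * A * (1 / nr (x k - X i) ^ 2)) :=
            mul_le_mul_of_nonneg_right (hZz i) (by positivity)
    have h6 : 0 ≤ z * (3 * A * (1 / nr (x k - X i) ^ 2)) := by positivity
    calc io d X x k i * (Z i * pf g X x k i)
        ≤ io d X x k i * (z * (3 * A * (1 / nr (x k - X i) ^ 2))) :=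
          mul_le_mul_of_nonneg_left h5 (io_nonneg _ _ _ _ _)
      _ ≤ 1 * (z * (3 * A * (1 / nr (x k - X i) ^ 2))) :=
          mul_le_mul_of_nonneg_right (io_le _ _ _ _ _) h6
      _ = _ := by ring

/-- a pair -/
theorem pair_bound {n : ℕ} {d A : ℝ} (hd : 0 < d) (hA : 0 ≤ A) (hKK : ST_KK)
    {g : R3 → ℝ} (hg : ContDiff ℝ (⊤ : ℕ∞) g)
    (hH : ∀ (y : R3) (ξ : Fin 3 → ℝ),
      -(A * ∑ i, ξ i ^ 2) ≤ ∑ i, ∑ l, pd i (pd l g) y * ξ i * ξ l)
    (x : Cf n) (k l : Fin n) (h : nr (x k - x l) ≠ 0) :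
    -(A * ((1 / nr (x k - x l) - Kf (d / 8) (x k - x l)) + 16 / d)) ≤
      qf g x k l + qf g x l k := by
  rw [qf_add]
  have hr : 0 < nr (x k - x l) := lt_of_le_of_ne (vr_nonneg _) (Ne.symm h)
  have h1 := repl_mono hg hH (x k) (x l)
  have h2 : ∑ i, (x k i - x l i) ^ 2 = nr (x k - x l) ^ 2 := by
    rw [vr_sq, Fin.sum_univ_three]
    simp only [Pi.sub_apply]
  rw [h2] at h1
  have h3 : -(A * (1 / nr (x k - x l))) ≤
      (∑ m, (pd m g (x k) - pd m g (x l)) * (x k m - x l m)) / nr (x k - x l) ^ 3 := by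
    rw [le_div_iff₀ (by positivity)]
    refine le_trans (le_of_eq ?_) h1
    field_simp
  have h4 := (hKK (d / 8) (x k - x l) (by positivity)).2.2.2
  have h5 : 2 / (d / 8) = 16 / d := by
    field_simp
    norm_num
  rw [h5] at h4
  refine le_trans ?_ h3
  have h6 : 1 / nr (x k - x l) ≤ (1 / nr (x k - x l) - Kf (d / 8) (x k - x l)) + 16 / d := by
    linarith
  have := mul_le_mul_of_nonneg_left h6 hA
  linarith

/-- the near pairs -/
theorem near_bound {n M : ℕ} {d A : ℝ} (hd : 0 < d) (hA : 0 ≤ A) (hKK : ST_KK)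
    {X : Fin M → R3} (hX : Sep X d) {g : R3 → ℝ} (hg : ContDiff ℝ (⊤ : ℕ∞) g)
    (hH : ∀ (y : R3) (ξ : Fin 3 → ℝ),
      -(A * ∑ i, ξ i ^ 2) ≤ ∑ i, ∑ l, pd i (pd l g) y * ξ i * ξ l)
    (x : Cf n) (hx : ∀ k l, k ≠ l → nr (x k - x l) ≠ 0) :
    -(A * (Rem (d / 8) x + 16 / d * ∑ i, cnt X (3 / 2 * d) x i ^ 2)) ≤
      ∑ i, ∑ k, ∑ l, io d X x k i * io d X x l i * qf g x k l := by
  have h1 : ∀ i, ∑ k, ∑ l, io d X x k i * io d X x l i * qf g x k l =
      ∑ k, ∑ l, if k < l then io d X x k i * io d X x l i * (qf g x k l + qf g x l k) else 0 := by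
    intro i
    rw [vr_pairs (fun k l => io d X x k i * io d X x l i * qf g x k l)
      (fun k => by simp [qf_self])]
    refine Finset.sum_congr rfl fun k _ => Finset.sum_congr rfl fun l _ => ?_
    split_ifs
    · ring
    · rfl
  have hw : ∀ k l, k < l → 0 ≤ 1 / nr (x k - x l) - Kf (d / 8) (x k - x l) := by
    intro k l hkl
    have := (hKK (d / 8) (x k - x l) (by positivity)).2.1 (hx k l hkl.ne)
    linarith
  -- lower bound of each term
  have h2 : ∀ i, ∑ k, ∑ l, (if k < l then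
      -(A * (io d X x k i * io d X x l i * (1 / nr (x k - x l) - Kf (d / 8) (x k - x l)))) else 0)
      - A * (16 / d) * cnt X (3 / 2 * d) x i ^ 2 ≤
      ∑ k, ∑ l, io d X x k i * io d X x l i * qf g x k l := by
    intro i
    rw [h1 i, cnt_eq, pow_two, Finset.sum_mul_sum, Finset.mul_sum, ← Finset.sum_sub_distrib]
    refine Finset.sum_le_sum fun k _ => ?_
    rw [Finset.mul_sum, ← Finset.sum_sub_distrib]
    refine Finset.sum_le_sum fun l _ => ?_
    have hk := io_nonneg d X x k i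
    have hl := io_nonneg d X x l i
    have hkl : 0 ≤ io d X x k i * io d X x l i := mul_nonneg hk hl
    have hdd : 0 ≤ A * (16 / d) := by positivity
    split_ifs with h
    · have h3 := pair_bound hd hA hKK hg hH x k l (hx k l h.ne)
      have h4 := mul_le_mul_of_nonneg_left h3 hkl
      nlinarith
    · have := mul_nonneg hdd hkl
      linarith
  have h3 : -(A * Rem (d / 8) x) ≤ ∑ i, ∑ k, ∑ l, (if k < l then
      -(A * (io d X x k i * io d X x l i * (1 / nr (x k - x l) - Kf (d / 8) (x k - x l))))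
      else 0) := by
    rw [Finset.sum_comm]
    unfold Rem
    rw [Finset.mul_sum, ← Finset.sum_neg_distrib]
    refine Finset.sum_le_sum fun k _ => ?_
    rw [Finset.sum_comm, Finset.mul_sum, ← Finset.sum_neg_distrib]
    refine Finset.sum_le_sum fun l _ => ?_
    by_cases h : k < l
    · simp only [if_pos h]
      rw [Finset.sum_neg_distrib]
      apply neg_le_neg
      rw [← Finset.mul_sum]
      refine mul_le_mul_of_nonneg_left ?_ hA
      rw [← Finset.sum_mul]
      have h4 : ∑ i, io d X x k i * io d X x l i ≤ 1 := by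
        refine le_trans (Finset.sum_le_sum fun i _ => ?_) (io_sum_le hd hX x k)
        exact mul_le_of_le_one_right (io_nonneg _ _ _ _ _) (io_le _ _ _ _ _)
      calc (∑ i, io d X x k i * io d X x l i) * (1 / nr (x k - x l) - Kf (d / 8) (x k - x l))
          ≤ 1 * (1 / nr (x k - x l) - Kf (d / 8) (x k - x l)) :=
            mul_le_mul_of_nonneg_right h4 (hw k l h)
        _ = _ := one_mul _
    · simp only [if_neg h]
      simp
  have h4 := Finset.sum_le_sum fun i (_ : i ∈ Finset.univ) => h2 i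
  rw [Finset.sum_sub_distrib, ← Finset.mul_sum] at h4
  nlinarith

theorem near1_le {n M : ℕ} {d : ℝ} {X : Fin M → R3} (x : Cf n)
    (hx : ∀ k j, nr (x k - X j) ≠ 0) (k : Fin n) : near1 X d (x k) ≤ d * near2 X d (x k) := by
  unfold near1 near2
  rw [Finset.mul_sum]
  refine Finset.sum_le_sum fun j _ => ?_
  split_ifs with h
  · have hr : 0 < nr (x k - X j) := lt_of_le_of_ne (vr_nonneg _) (Ne.symm (hx k j))
    rw [mul_one_div, div_le_div_iff₀ hr (by positivity)]
    nlinarith
  · simp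

theorem near2_nonneg {M : ℕ} (X : Fin M → R3) (d : ℝ) (y : R3) : 0 ≤ near2 X d y := by
  unfold near2
  refine Finset.sum_nonneg fun j _ => ?_
  split_ifs <;> positivity

theorem VIR (hES : ST_ES1) (hNB : ST_NB) (hFF : ST_FF) (hKK : ST_KK) : ST_VIR := by
  intro z d A hz hd hA1
  have hA : 0 ≤ A := by linarith
  obtain ⟨C1, hC1, hES⟩ := hES z d hz hd
  obtain ⟨C2, hC2, hNB⟩ := hNB z d hz hd
  obtain ⟨C3, hC3, hFF⟩ := hFF z d hz hd
  set K1 : ℝ := 3 / 2 * A * (C2 + C3) + 16 * A / d * C2 with hK1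
  have hK10 : 0 ≤ K1 := by positivity
  refine ⟨C1 + z * d + K1 + A + 3 * z * A + 1, by positivity, ?_⟩
  intro n M X Z g x hX hN hn hZ1 hZz hg h0 h1 hH hD
  obtain ⟨hD1, hD2⟩ := hD
  have hZ0 : ∀ j, 0 ≤ Z j := fun j => zero_le_one.trans (hZ1 j)
  set S : ℝ := ∑ k, near2 X d (x k) with hS
  have hS0 : 0 ≤ S := Finset.sum_nonneg fun k _ => near2_nonneg X d (x k)
  have hDn : 0 ≤ Dn (d / 8) X Z x := vr_Dn_nonneg _ _ _ _
  have hRem : 0 ≤ Rem (d / 8) x := by
    unfold Rem
    refine Finset.sum_nonneg fun k _ => Finset.sum_nonneg fun l _ => ?_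
    split_ifs with h
    · have := (hKK (d / 8) (x k - x l) (by positivity)).2.1 (hD1 k l h.ne)
      linarith
    · exact le_rfl
  have hMn : (M : ℝ) ≤ n := by
    rw [← hN.2]
    calc (M : ℝ) = ∑ j : Fin M, (1 : ℝ) := by simp
      _ ≤ ∑ j, Z j := Finset.sum_le_sum fun j _ => hZ1 j
  have hn0 : (0 : ℝ) ≤ n := Nat.cast_nonneg n
  have hes := hES n M X Z x hX hN hZz ⟨hD1, hD2⟩
  have hnear : ∑ k, near1 X d (x k) ≤ d * S := by
    rw [hS, Finset.mul_sum]
    exact Finset.sum_le_sum fun k _ => near1_le x hD2 k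
  set E : ℝ := Vc X Z x + C1 * n + z * (d * S) with hE
  have hE1 : 1 / 2 * Dn (d / 8) X Z x + Rem (d / 8) x ≤ E := by
    have := mul_le_mul_of_nonneg_left hnear hz
    rw [hE]
    linarith
  have hE0 : 0 ≤ E := by linarith
  -- the main lower bound
  obtain ⟨e, he1, he2⟩ := hFF n M X Z x hX hZ0 hZz
  have hnb := hNB n M X Z x hX hZ0 hZz
  have hmain : -(3 * A * ∑ i, e i * cnt X (3 / 2 * d) x i) -
      A * (Rem (d / 8) x + 16 / d * ∑ i, cnt X (3 / 2 * d) x i ^ 2) - 3 * z * A * S ≤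
      2 * Vir X Z g x := by
    rw [vir_eq]
    have e1 : ∑ k, ((∑ l, qf g x k l) - ∑ j, Z j * pf g X x k j) =
        ∑ i, ∑ k, ∑ l, io d X x k i * io d X x l i * qf g x k l +
        ∑ i, ∑ k, io d X x k i * ∑ m, pd m g (x k) * farE d X Z x i m (x k) -
        ∑ k, ∑ i, io d X x k i * (Z i * pf g X x k i) := by
      rw [Finset.sum_comm (f := fun k i => io d X x k i * (Z i * pf g X x k i)),
        ← Finset.sum_add_distrib, ← Finset.sum_sub_distrib]
      rw [Finset.sum_congr rfl fun k _ => io_insert hd hX x h0 Z k, Finset.sum_comm]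
      refine Finset.sum_congr rfl fun i _ => ?_
      rw [← Finset.sum_add_distrib, ← Finset.sum_sub_distrib]
      refine Finset.sum_congr rfl fun k _ => ?_
      rw [force_eq d X Z g x k i]
      have e2 : ∑ l, io d X x k i * io d X x l i * qf g x k l =
          io d X x k i * ∑ l, io d X x l i * qf g x k l := by
        rw [Finset.mul_sum]
        exact Finset.sum_congr rfl fun l _ => by ring
      rw [e2]
      ring
    rw [e1]
    have a1 := near_bound hd hA hKK hX hg hH x hD1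
    have a2 : -(3 * A * ∑ i, e i * cnt X (3 / 2 * d) x i) ≤
        ∑ i, ∑ k, io d X x k i * ∑ m, pd m g (x k) * farE d X Z x i m (x k) := by
      rw [Finset.mul_sum, ← Finset.sum_neg_distrib]
      refine Finset.sum_le_sum fun i _ => ?_
      rw [cnt_eq, ← mul_assoc, Finset.mul_sum, ← Finset.sum_neg_distrib]
      exact Finset.sum_le_sum fun k _ => far_bound hd hA hX x h0 h1 he1 k i
    have a3 : ∑ k, ∑ i, io d X x k i * (Z i * pf g X x k i) ≤ 3 * z * A * S := by
      rw [hS, Finset.mul_sum]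
      refine Finset.sum_le_sum fun k _ => ?_
      unfold near2
      rw [Finset.mul_sum]
      exact Finset.sum_le_sum fun i _ => own_bound hd hA hX x hD2 hZ0 hZz h0 h1 k i
    linarith
  have hcs : ∑ i, e i * cnt X (3 / 2 * d) x i ≤
      1 / 2 * (∑ i, e i ^ 2 + ∑ i, cnt X (3 / 2 * d) x i ^ 2) := by
    rw [← Finset.sum_add_distrib, Finset.mul_sum]
    refine Finset.sum_le_sum fun i _ => ?_
    nlinarith [sq_nonneg (e i - cnt X (3 / 2 * d) x i)]
  have hQ : 3 * A * (∑ i, e i * cnt X (3 / 2 * d) x i) +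
      A * (16 / d * ∑ i, cnt X (3 / 2 * d) x i ^ 2) ≤ K1 * (M + Dn (d / 8) X Z x) := by
    have b1 : 3 * A * (∑ i, e i * cnt X (3 / 2 * d) x i) ≤
        3 / 2 * A * (C2 + C3) * (M + Dn (d / 8) X Z x) := by
      have := mul_le_mul_of_nonneg_left hcs (by positivity : 0 ≤ 3 * A)
      have b2 : ∑ i, e i ^ 2 + ∑ i, cnt X (3 / 2 * d) x i ^ 2 ≤
          (C2 + C3) * (M + Dn (d / 8) X Z x) := by linarith
      have b3 := mul_le_mul_of_nonneg_left b2 (by positivity : 0 ≤ 3 / 2 * A)
      linarith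
    have b4 : A * (16 / d * ∑ i, cnt X (3 / 2 * d) x i ^ 2) ≤
        16 * A / d * C2 * (M + Dn (d / 8) X Z x) := by
      have := mul_le_mul_of_nonneg_left hnb (by positivity : 0 ≤ 16 * A / d)
      calc A * (16 / d * ∑ i, cnt X (3 / 2 * d) x i ^ 2)
          = 16 * A / d * ∑ i, cnt X (3 / 2 * d) x i ^ 2 := by ring
        _ ≤ _ := this
        _ = _ := by ring
    rw [hK1]
    linarith
  have hfin : -(K1 * (n + 2 * E) + A * E + 3 * z * A * S) ≤ 2 * Vir X Z g x := by
    have c1 : K1 * (M + Dn (d / 8) X Z x) ≤ K1 * (n + 2 * E) :=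
      mul_le_mul_of_nonneg_left (by linarith) hK10
    have c2 : A * Rem (d / 8) x ≤ A * E := mul_le_mul_of_nonneg_left (by linarith) hA
    linarith
  set C : ℝ := C1 + z * d + K1 + A + 3 * z * A + 1 with hC
  have hzd : 0 ≤ z * d := by positivity
  have hzA : 0 ≤ 3 * z * A := by positivity
  have hC1' : 1 ≤ C := by rw [hC]; linarith
  have hW : Vc X Z x + C * (n + S) = E + (C - C1) * n + (C - z * d) * S := by
    rw [hE]
    ring
  have p1 : 0 ≤ (C - C1) * n := mul_nonneg (by rw [hC]; linarith) hn0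
  have p2 : 0 ≤ (C - z * d) * S := mul_nonneg (by rw [hC]; linarith) hS0
  refine ⟨by rw [hW]; linarith, ?_⟩
  rw [hW]
  have q1 : (K1 + A) * E ≤ C * E := mul_le_mul_of_nonneg_right (by rw [hC]; linarith) hE0
  have q2 : K1 * n ≤ C * ((C - C1) * n) := by
    have r1 : K1 * n ≤ (C - C1) * n := mul_le_mul_of_nonneg_right (by rw [hC]; linarith) hn0
    have r2 : (C - C1) * n ≤ C * ((C - C1) * n) := le_mul_of_one_le_left p1 hC1'
    linarith
  have q3 : 3 * z * A * S ≤ C * ((C - z * d) * S) := by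
    have r1 : 3 * z * A * S ≤ (C - z * d) * S :=
      mul_le_mul_of_nonneg_right (by rw [hC]; linarith) hS0
    have r2 : (C - z * d) * S ≤ C * ((C - z * d) * S) := le_mul_of_one_le_left p2 hC1'
    linarith
  have q4 : C * (E + (C - C1) * n + (C - z * d) * S) =
      C * E + C * ((C - C1) * n) + C * ((C - z * d) * S) := by ring
  rw [q4]
  have q5 : 0 ≤ K1 * n := mul_nonneg hK10 hn0
  have q6 : 0 ≤ A * E := mul_nonneg hA hE0
  have q7 : 0 ≤ 3 * z * A * S := mul_nonneg hzA hS0
  nlinarith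

end Pool.Agent.Helper32.LN
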